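import Pool.Agent.Helper69.GU.Lib2

set_option autoImplicit false

/-! EVU: the value of `T_a T_c^adj` at `X = ρ⁻²` has rank one. -/

namespace Pool.Agent.Helper69.GU

open Polynomial
open Pool.Agent.Helper51.GT (Mat PMat fr Dat dg Zm Fil Cir flp Red gprod Zp Filp Circ tr4 fra_zero
  fra_fr fra_add8 fra_inj)

variable {K : Type} [Field K] {φ : K ≃+* K} {ρ : K}

/-- The adjugate of a singular matrix with kernel vector `k`. -/
theorem adj_ker (A : Matrix (Fin 4) (Fin 4) K) (k : Fin 4 → K) (hA : A.mulVec k = 0)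
    (l : Fin 4) (hk : k l ≠ 0) (i j : Fin 4) :
    k l * A.adjugate i j = k i * A.adjugate l j := by
  have h0 : (A.updateRow j (k l • Pi.single i 1 + (-k i) • Pi.single l 1)).det = 0 := by
    apply Matrix.exists_mulVec_eq_zero_iff.mp
    refine ⟨k, fun h => hk (congrFun h l), ?_⟩
    ext r
    simp only [Matrix.mulVec, Pi.zero_apply]
    by_cases hr : r = j
    · subst hr
      rw [Matrix.updateRow_self]
      simp [dotProduct, add_mul, Finset.sum_add_distrib, Pi.single_apply]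
      ring
    · rw [Matrix.updateRow_ne hr]
      exact congrFun hA r
  rw [Matrix.det_updateRow_add, Matrix.det_updateRow_smul, Matrix.det_updateRow_smul] at h0
  rw [Matrix.adjugate_apply, Matrix.adjugate_apply]
  linear_combination h0

/-- The adjugate of a singular matrix with right and left kernel vectors `k`, `l`. -/
theorem adj_rk (A : Matrix (Fin 4) (Fin 4) K) (k l : Fin 4 → K) (hA : A.mulVec k = 0)
    (hB : Matrix.vecMul l A = 0) (e : Fin 4) (hk : k e ≠ 0) (hl : l e ≠ 0) (i j : Fin 4) :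
    k e * l e * A.adjugate i j = A.adjugate e e * (k i * l j) := by
  have h1 := adj_ker A k hA e hk i j
  have h2 := adj_ker A.transpose l (by rw [Matrix.mulVec_transpose]; exact hB) e hl j e
  rw [← Matrix.adjugate_transpose, Matrix.transpose_apply, Matrix.transpose_apply] at h2
  linear_combination l e * h1 + k i * h2

section vals

variable {a b t t1 a2 a3 a4 T0 T1 T2 T3 U0 U1 U2 U3 : K}

theorem UVal.rows (h : UVal ρ a b t t1 a2 a3 a4 T0 T1 T2 T3 U0 U1 U2 U3) :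
    a * U0 + T0 * ρ⁻¹ + ρ * b * (ρ⁻¹ * U2) = 0 ∧
    b * ρ⁻¹ + T1 * (ρ⁻¹ * U2) + ρ⁻¹ * a2 * ρ⁻¹ ^ 2 = 0 ∧
    ρ⁻¹ * a3 * U0 + a2 * (ρ⁻¹ * U2) + T2 * ρ⁻¹ ^ 2 = 0 ∧
    ρ⁻¹ ^ 2 * T3 * U0 + ρ⁻¹ ^ 2 * (ρ⁻¹ * a4) * ρ⁻¹ + a3 * ρ⁻¹ ^ 2 = 0 := by
  obtain ⟨⟨ha, hb, ht, ht1, hab, hs, hE⟩, h0, h2, e2, e3, e4, s0, s1, s2, s3, u0, u1, u2, u3⟩ := h
  subst e2 e3 e4 s0 s1 s2 s3 u0 u1 u2 u3
  field_simp at hE
  refine ⟨?_, ?_, ?_, ?_⟩ <;> field_simp
  · linear_combination hE + (a4 * ρ ^ 2 + a4 * ρ ^ 2 * b ^ 2 + a4 ^ 2 * b + b) * h2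
  · linear_combination (1 + b * ρ ^ 2 * a4) * h2
  · linear_combination hE + (a4 * ρ ^ 2 + a4 * ρ ^ 2 * b ^ 2 + a4 ^ 2 * b + b) * h2
  · linear_combination (ρ ^ 2 + a4 * b) * h2

theorem UVal.cols (h : UVal ρ a b t t1 a2 a3 a4 T0 T1 T2 T3 U0 U1 U2 U3) :
    ρ⁻¹ * U1 * a + U3 * (ρ⁻¹ * a3) + ρ ^ 2 * (ρ⁻¹ ^ 2 * T3) = 0 ∧
    ρ⁻¹ * U1 * T0 + ρ * b + ρ ^ 2 * (ρ⁻¹ ^ 2 * (ρ⁻¹ * a4)) = 0 ∧
    ρ⁻¹ * U1 * (ρ * b) + ρ * T1 + U3 * a2 = 0 ∧
    ρ * (ρ⁻¹ * a2) + U3 * T2 + ρ ^ 2 * a3 = 0 := by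
  obtain ⟨⟨ha, hb, ht, ht1, hab, hs, hE⟩, h0, h2, e2, e3, e4, s0, s1, s2, s3, u0, u1, u2, u3⟩ := h
  subst e2 e3 e4 s0 s1 s2 s3 u0 u1 u2 u3
  field_simp at hE
  refine ⟨?_, ?_, ?_, ?_⟩ <;> field_simp
  · linear_combination hE + (a4 * ρ ^ 2 + a4 * ρ ^ 2 * b ^ 2 + a4 ^ 2 * b + b) * h2
  · linear_combination (a4 + ρ ^ 2 * b) * h2
  · linear_combination hE + (a4 * ρ ^ 2 + a4 * ρ ^ 2 * b ^ 2 + a4 ^ 2 * b + b) * h2
  · linear_combination (b + ρ ^ 2 * a4) * h2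

end vals

/-- The minor of `T` at `X = ρ⁻²`. -/
theorem adj_11 (hD : Dat φ) (hr : Rho φ ρ) {p : K × K} (hp : p ∈ XU φ ρ) :
    (Matrix.of fun r i => (th φ ρ p r i).eval (ρ⁻¹ ^ 2)).adjugate 1 1 =
      ρ⁻¹ * fr φ 2 p.1 * (fr φ 4 (tt φ p) * fr φ 6 (tt φ p)) := by
  have h := XU_val hD hr hp
  have ha := h.F.a0
  have hb := h.F.b0
  have h0 := h.r0
  have e2 := h.e2
  have e3 := h.e3
  rw [Matrix.adjugate_fin_succ_eq_det_submatrix, Matrix.det_fin_three]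
  simp only [Matrix.submatrix_apply, Matrix.of_apply, th_ev hr]
  simp [Fin.succAbove, e2, e3]
  field_simp
  ring

theorem kv_ker (hD : Dat φ) (hr : Rho φ ρ) {p : K × K} (hp : p ∈ XU φ ρ) :
    (Matrix.of fun r i => (th φ ρ p r i).eval (ρ⁻¹ ^ 2)).mulVec (kv φ ρ p) = 0 := by
  obtain ⟨h0, h1, h2, h3⟩ := (XU_val hD hr hp).rows
  ext r
  simp only [Matrix.mulVec, dotProduct, Fin.sum_univ_four, Matrix.of_apply, th_ev hr, kv]
  fin_cases r
  · simpa using h0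
  · simpa using h1
  · simpa using h2
  · simpa using h3

theorem lv_ker (hD : Dat φ) (hr : Rho φ ρ) {p : K × K} (hp : p ∈ XU φ ρ) :
    Matrix.vecMul (lv φ ρ p) (Matrix.of fun r i => (th φ ρ p r i).eval (ρ⁻¹ ^ 2)) = 0 := by
  obtain ⟨h0, h1, h2, h3⟩ := (XU_val hD hr hp).cols
  ext r
  simp only [Matrix.vecMul, dotProduct, Fin.sum_univ_four, Matrix.of_apply, th_ev hr, lv]
  fin_cases r
  · simpa using h0
  · simpa using h1
  · simpa using h2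
  · simpa using h3

theorem st_EVU : ST_EVU := by
  intro K _ φ ρ hD hr c hc
  have hv := XU_val hD hr hc
  set A : Matrix (Fin 4) (Fin 4) K := Matrix.of fun r i => (th φ ρ c r i).eval (ρ⁻¹ ^ 2)
    with hA
  have h0 : ρ ≠ 0 := hr.ne0
  refine ⟨A.adjugate 1 1, ?_, ?_⟩
  · rw [hA, adj_11 hD hr hc]
    have h4 : tt φ c ≠ 0 := tt_ne hD hc
    have h5 : ∀ i, fr φ i (tt φ c) ≠ 0 := by
      intro i
      rw [Ne, map_eq_zero]
      exact h4
    exact mul_ne_zero (mul_ne_zero (inv_ne_zero h0) hv.F.b0) (mul_ne_zero (h5 4) (h5 6))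
  · intro a r s
    have had : ∀ i j, (ad φ ρ c i j).eval (ρ⁻¹ ^ 2) = A.adjugate i j := by
      intro i j
      have := RingHom.map_adjugate (Polynomial.evalRingHom (ρ⁻¹ ^ 2)) (th φ ρ c)
      have h7 := congrFun (congrFun this i) j
      simpa [ad, hA, Matrix.map] using h7
    have hrk := adj_rk A (kv φ ρ c) (lv φ ρ c) (kv_ker hD hr hc) (lv_ker hD hr hc) 1
      (by simpa [kv] using h0) (by simpa [lv] using h0)
    have hone : kv φ ρ c 1 * lv φ ρ c 1 = 1 := by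
      simp [kv, lv, h0]
    rw [hone] at hrk
    rw [Matrix.mul_apply, Polynomial.eval_finsetSum, gv, Finset.mul_sum, Finset.sum_mul]
    refine Finset.sum_congr rfl fun i _ => ?_
    rw [Polynomial.eval_mul, had]
    linear_combination (th φ ρ a r i).eval (ρ⁻¹ ^ 2) * hrk i s

end Pool.Agent.Helper69.GU
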