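import Pool.Agent.Helper69.GU.MF

set_option autoImplicit false

/-! NDU: the form `M` does not vanish on pairs of different generators. -/

namespace Pool.Agent.Helper69.GU

open Polynomial
open Pool.Agent.Helper51.GT (Mat PMat fr Dat dg Zm Fil Cir flp Red gprod Zp Filp Circ tr4 fra_zero
  fra_fr fra_add8 fra_inj)

variable {K : Type} [Field K] {φ : K ≃+* K} {ρ : K}

theorem two_sq (h2 : (2 : K) = 0) {x : K} (h : x * x = 1) : x = 1 := by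
  have h6 : (x - 1) ^ 2 = 0 := by linear_combination h + (1 - x) * h2
  exact sub_eq_zero.mp (pow_eq_zero_iff (by norm_num) |>.mp h6)

/-- Two generators with `a c₁ = a₁ c` or `a a₁ = c c₁` have `a = c`. -/
theorem fst_eq (hD : Dat φ) {a c : K × K} (ha : a ∈ XU φ ρ) (hc : c ∈ XU φ ρ)
    (h : a.1 * fr φ 2 c.1 = fr φ 2 a.1 * c.1 ∨ a.1 * fr φ 2 a.1 = c.1 * fr φ 2 c.1) :
    a.1 = c.1 := by
  obtain ⟨hF, a2, -⟩ := XU_facts hD ha
  obtain ⟨hG, c2, -⟩ := XU_facts hD hc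
  have ha0 := hF.a0
  have hb0 := hF.b0
  have hc0 := hG.a0
  have hd0 := hG.b0
  set x := a.1 / c.1 with hx
  have hx0 : x ≠ 0 := div_ne_zero ha0 hc0
  have hx1 : fr φ 2 x = fr φ 2 a.1 / fr φ 2 c.1 := by rw [hx, map_div₀]
  have hx2 : fr φ 4 x = x⁻¹ := by
    rw [hx, map_div₀, a2, c2]
    field_simp
  have hx4 : fr φ 4 x = fr φ 2 (fr φ 2 x) := by rw [fra_fr]
  have hxx : x * x = 1 := by
    rcases h with h | h
    · have h5 : fr φ 2 x = x := by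
        rw [hx1, hx, div_eq_div_iff hd0 hc0]
        exact h.symm
      rw [hx4, h5, h5] at hx2
      nth_rewrite 1 [hx2]
      exact inv_mul_cancel₀ hx0
    · have h5 : fr φ 2 x = x⁻¹ := by
        apply eq_inv_of_mul_eq_one_right
        rw [hx1, hx, div_mul_div_comm, h]
        exact div_self (mul_ne_zero hc0 hd0)
      rw [hx4, h5, map_inv₀, h5, inv_inv] at hx2
      nth_rewrite 1 [hx2]
      exact inv_mul_cancel₀ hx0
  have h1 := two_sq hD.two hxx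
  rw [hx] at h1
  exact (div_eq_one_iff_eq hc0).mp h1

theorem st_NDU : ST_NDU := by
  intro K _ φ ρ hD hr a ha b hb hne hM
  have hM' : Mf φ ρ b a = 0 := by
    rw [← Mf_symm hD hr a b, hM, map_zero]
  have h0 := hr.ne0
  have hw := hr.w hD
  have h2 := hD.two
  have hL := Mf_left hD hr a hb
  have hR := Mf_left hD hr b ha
  rw [hM, zero_mul] at hL
  rw [hM', zero_mul] at hR
  have hL' : b.1 * (uu φ ρ a + uu φ ρ b) +
      fr φ 2 b.1 * (fr φ 4 (uu φ ρ a) + fr φ 4 (uu φ ρ b)) = 0 :=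
    (mul_eq_zero.mp hL.symm).resolve_left (mul_ne_zero h0 hw)
  have hR' : a.1 * (uu φ ρ b + uu φ ρ a) +
      fr φ 2 a.1 * (fr φ 4 (uu φ ρ b) + fr φ 4 (uu φ ρ a)) = 0 :=
    (mul_eq_zero.mp hR.symm).resolve_left (mul_ne_zero h0 hw)
  obtain ⟨hF, -⟩ := XU_facts hD ha
  obtain ⟨hG, -⟩ := XU_facts hD hb
  have va := XU_val hD hr ha
  have vb := XU_val hD hr hb
  have hr1 : ρ * ρ⁻¹ = 1 := mul_inv_cancel₀ h0
  have fin : a.1 = b.1 → fr φ 2 a.2 = fr φ 2 b.2 → False := by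
    intro e1 e2
    exact hne (Prod.ext e1 (fra_inj φ 2 e2))
  have pu0 : ∀ {p : K × K}, p ∈ XU φ ρ → uu φ ρ p * (fr φ 2 p.2 * (p.1 + fr φ 2 p.1)) =
      1 + ρ⁻¹ ^ 2 * p.1 * fr φ 2 p.1 := by
    intro p hp
    have v := XU_val hD hr hp
    rw [v.U0, div_mul_cancel₀ _ (mul_ne_zero v.F.t10 v.F.ab)]
  have pu2 : ∀ {p : K × K}, p ∈ XU φ ρ → fr φ 4 (uu φ ρ p) * (fr φ 2 p.2 * (p.1 + fr φ 2 p.1)) =
      p.1 * fr φ 2 p.1 + ρ⁻¹ ^ 2 := by
    intro p hp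
    have v := XU_val hD hr hp
    rw [v.U2, div_mul_cancel₀ _ (mul_ne_zero v.F.t10 v.F.ab)]
  have ua0 := pu0 ha
  have ua2 := pu2 ha
  have ub0 := pu0 hb
  have ub2 := pu2 hb
  by_cases hd : uu φ ρ a + uu φ ρ b = 0
  · -- equal values
    have e0 : uu φ ρ a = uu φ ρ b := by linear_combination hd - uu φ ρ b * h2
    rw [e0] at ua0 ua2
    have h4 : (a.1 * fr φ 2 a.1 - b.1 * fr φ 2 b.1) * (ρ ^ 2 + ρ⁻¹ ^ 2) = 0 := by
      generalize ρ⁻¹ = r at *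
      linear_combination ρ ^ 2 * ((b.1 * fr φ 2 b.1 + r ^ 2) * ua0 +
        uu φ ρ b * (fr φ 2 a.2 * (a.1 + fr φ 2 a.1)) * ub2 -
        (a.1 * fr φ 2 a.1 + r ^ 2) * ub0 -
        uu φ ρ b * (fr φ 2 b.2 * (b.1 + fr φ 2 b.1)) * ua2) +
        (a.1 * fr φ 2 a.1 - b.1 * fr φ 2 b.1) * r ^ 2 * h2 +
        (a.1 * fr φ 2 a.1 - b.1 * fr φ 2 b.1) * r ^ 2 * (ρ * r + 1) * hr1
    have hab : a.1 = b.1 := by
      apply fst_eq hD ha hb
      right
      exact sub_eq_zero.mp ((mul_eq_zero.mp h4).resolve_right hw)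
    rw [hab] at ua0 ua2
    apply fin hab
    by_contra hcon
    have hsub : (fr φ 2 a.2 - fr φ 2 b.2) * (b.1 + fr φ 2 b.1) ≠ 0 :=
      mul_ne_zero (sub_ne_zero.mpr hcon) hG.ab
    have z0 : uu φ ρ b = 0 := by
      refine (mul_eq_zero.mp ?_).resolve_right hsub
      linear_combination ua0 - ub0
    have z2 : fr φ 4 (uu φ ρ b) = 0 := by rw [z0, map_zero]
    rw [z0, zero_mul] at ub0
    rw [z2, zero_mul] at ub2
    apply hw
    generalize ρ⁻¹ = r at *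
    linear_combination -ρ ^ 2 * ub0 + ub2 + r ^ 2 * h2 -
      b.1 * fr φ 2 b.1 * (ρ * r + 1) * hr1
  · have hd2 : fr φ 4 (uu φ ρ a) + fr φ 4 (uu φ ρ b) ≠ 0 := by
      rw [← map_add, Ne, map_eq_zero]
      exact hd
    have hab : a.1 = b.1 := by
      apply fst_eq hD ha hb
      left
      have h5 : (a.1 * fr φ 2 b.1 - fr φ 2 a.1 * b.1) *
          (fr φ 4 (uu φ ρ a) + fr φ 4 (uu φ ρ b)) = 0 := by
        linear_combination a.1 * hL' - b.1 * hR'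
      exact sub_eq_zero.mp ((mul_eq_zero.mp h5).resolve_right hd2)
    rw [hab] at ua0 ua2 hR'
    apply fin hab
    have hE := hG.E
    have hne0 : ρ⁻¹ * (b.2 * fr φ 2 b.2 * (b.1 + fr φ 2 b.1) * (1 + b.1 * fr φ 2 b.1)) ≠ 0 :=
      mul_ne_zero (inv_ne_zero h0)
        (mul_ne_zero (mul_ne_zero (mul_ne_zero hG.t0 hG.t10) hG.ab) hG.s0)
    have h7 : (fr φ 2 a.2 + fr φ 2 b.2) *
        (ρ⁻¹ * (b.2 * fr φ 2 b.2 * (b.1 + fr φ 2 b.1) * (1 + b.1 * fr φ 2 b.1))) = 0 := by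
      rw [hE]
      generalize ρ⁻¹ = r at *
      linear_combination (fr φ 2 a.2 * fr φ 2 b.2 * (b.1 + fr φ 2 b.1)) * hR' -
        b.1 * fr φ 2 b.2 * ua0 - b.1 * fr φ 2 a.2 * ub0 -
        fr φ 2 b.1 * fr φ 2 b.2 * ua2 - fr φ 2 b.1 * fr φ 2 a.2 * ub2 +
        (fr φ 2 a.2 + fr φ 2 b.2) * b.1 * (1 + fr φ 2 b.1 ^ 2) * hr1
    have h8 := (mul_eq_zero.mp h7).resolve_right hne0
    linear_combination h8 - fr φ 2 b.2 * h2

end Pool.Agent.Helper69.GU
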