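import Pool.Agent.Helper69.GU.MF
import Pool.Agent.Helper69.GU.EVU

set_option autoImplicit false

/-! PAIRU: the pairing of consecutive directions is a product of two values of `M`. -/

namespace Pool.Agent.Helper69.GU

open Polynomial
open Pool.Agent.Helper51.GT (Mat PMat fr Dat dg Zm Fil Cir flp Red gprod Zp Filp Circ tr4 fra_zero
  fra_fr fra_add8 fra_inj)

variable {K : Type} [Field K] {φ : K ≃+* K} {ρ : K}

theorem pair_raw (hD : Dat φ) (hr : Rho φ ρ) {a : K × K} (ha : a ∈ XU φ ρ) (b c : K × K) :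
    ∑ s : Fin 4, lv φ ρ b s * gv φ ρ a c s =
      ρ⁻¹ * ((fr φ 2 (uu φ ρ b) - fr φ 2 (uu φ ρ a)) *
        (a.1 * (uu φ ρ c - uu φ ρ a) +
          fr φ 2 a.1 * (fr φ 4 (uu φ ρ c) - fr φ 4 (uu φ ρ a))) +
        (fr φ 6 (uu φ ρ b) - fr φ 6 (uu φ ρ a)) *
        (fr φ 6 a.1 * (uu φ ρ c - uu φ ρ a) +
          fr φ 4 a.1 * (fr φ 4 (uu φ ρ c) - fr φ 4 (uu φ ρ a)))) := by
  have hv := XU_val hD hr ha
  obtain ⟨r0, r1, r2, r3⟩ := hv.rows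
  obtain ⟨c0, c1, c2, c3⟩ := hv.cols
  have h0 := hr.ne0
  have hr1 : ρ * ρ⁻¹ = 1 := mul_inv_cancel₀ h0
  simp only [gv, Fin.sum_univ_four, th_ev hr, kv, lv]
  simp only [Matrix.of_apply, Matrix.cons_val', Matrix.cons_val_zero, Matrix.cons_val_one,
    Matrix.cons_val_two, Matrix.cons_val_three, Matrix.tail_cons, Matrix.vecHead,
    Matrix.cons_val_fin_one, Matrix.empty_val']
  generalize ρ⁻¹ = r at *
  linear_combination (r * (fr φ 2 (uu φ ρ b) - fr φ 2 (uu φ ρ a))) * r0 +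
    (fr φ 6 (uu φ ρ b) - fr φ 6 (uu φ ρ a)) * r2 + uu φ ρ c * c0 + r * c1 +
    r * fr φ 4 (uu φ ρ c) * c2 + r ^ 2 * c3 +
    r * (fr φ 2 (uu φ ρ b) - fr φ 2 (uu φ ρ a)) * fr φ 2 a.1 *
      (fr φ 4 (uu φ ρ c) - fr φ 4 (uu φ ρ a)) * hr1

theorem st_PAIRU : ST_PAIRU := by
  intro K _ φ ρ hD hr a ha
  have hv := XU_val hD hr ha
  have h0 := hr.ne0
  have hw := hr.w hD
  have h2 := hD.two
  refine ⟨ρ⁻¹ * (tt φ a * (fr φ 2 a.2 * (a.1 + fr φ 2 a.1))) /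
    (a.1 * fr φ 2 a.1 * (ρ ^ 2 + ρ⁻¹ ^ 2) ^ 2), ?_, ?_⟩
  · have := tt_ne hD ha
    exact div_ne_zero (mul_ne_zero (inv_ne_zero h0)
      (mul_ne_zero this (mul_ne_zero hv.F.t10 hv.F.ab)))
      (mul_ne_zero (mul_ne_zero hv.F.a0 hv.F.b0) (pow_ne_zero 2 hw))
  · intro b hb c hc
    rw [pair_raw hD hr ha b c]
    have hL := Mf_left hD hr c ha
    have hR := Mf_right hD hr ha b
    have ha0 := hv.F.a0
    have hb0 := hv.F.b0
    rw [hv.e2, hv.e3]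
    have e1 : ρ⁻¹ * (tt φ a * (fr φ 2 a.2 * (a.1 + fr φ 2 a.1))) /
        (a.1 * fr φ 2 a.1 * (ρ ^ 2 + ρ⁻¹ ^ 2) ^ 2) * (Mf φ ρ a b * Mf φ ρ c a) =
        ρ⁻¹ * ((Mf φ ρ c a * tt φ a) * (Mf φ ρ a b * (fr φ 2 a.2 * (a.1 + fr φ 2 a.1)))) /
        (a.1 * fr φ 2 a.1 * (ρ ^ 2 + ρ⁻¹ ^ 2) ^ 2) := by ring
    rw [e1, hL, hR]
    generalize ρ ^ 2 + ρ⁻¹ ^ 2 = w at *
    have hsub : ∀ x y : K, x - y = x + y := by
      intro x y
      linear_combination -y * h2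
    simp only [hsub]
    field_simp
    ring

end Pool.Agent.Helper69.GU
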