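import Pool.Agent.Helper11.GU.FINU
import Pool.Agent.Helper11.GU.GRPU
import Pool.Agent.Helper37.GU.NUMU
import Pool.Agent.Helper51.GU.DVU
import Pool.Agent.Helper51.GU.MATU
import Pool.Agent.Helper51.GU.VANU
import Pool.Agent.Helper58.GU.IDXU
import Pool.Agent.Helper69.GU.EVU
import Pool.Agent.Helper69.GU.NDU
import Pool.Agent.Helper69.GU.PAIRU
import Pool.Agent.Helper7.GU.ADJU
import Pool.Agent.Helper83.GU.RNKU
import Pool.Agent.Helper9.GU.FLDU
import Pool.Agent.Helper9.GU.FLPU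
import Pool.Agent.Helper9.GU.FLU
import Pool.Agent.Helper9.GU.PRODU
import Pool.Agent.Helper9.GU.RELU
import Pool.Agent.Helper9.GU.SYMU
import Pool.Agent.Helper90.GU.UNIU

set_option autoImplicit false

/-! Assembly of the modules. -/

namespace Pool.Agent.Helper69.GU

theorem all_FINU : ST_FINU :=
  have hFLPU := st_FLPU st_UNIU st_ADJU st_MATU st_FLU
  have hPRODU := st_PRODU st_MATU st_ADJU hFLPU st_FLU
  have hRNKU := st_RNKU st_EVU st_PAIRU st_NDU
  have hSYMU := st_SYMU hPRODU st_FLU st_UNIU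
  have hDVU := st_DVU hRNKU hPRODU
  have hRELU := st_RELU hDVU hRNKU hSYMU st_VANU hPRODU
  st_FINU (st_GRPU st_MATU hRELU st_IDXU) st_FLDU st_NUMU

end Pool.Agent.Helper69.GU
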