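import Pool.Agent.Helper51.GT.Defs

set_option autoImplicit false

/-! Graphs of large girth, sharp form (T3).  The same division algebra of degree four as in
`Pool.Agent.Helper51.GT` (`K = F_(q^4)`, `q = q₀²`, `φ = (x ↦ x^(q₀))`, `σ = φ²`, `z a = σ(a) z`,
`z⁴ = X`), with another involution: `θ(x) = x` for `x ∈ K`, `θ(z) = z⁻¹`, and the place
`P = (X + ρ²)(X + ρ⁻²)`, `ρ^(q+1) = 1`.  Comments: `x_i = σ^i(x) = fr φ (2 i) x`, `i` mod 4. -/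

namespace Pool.Agent.Helper69.GU

open Polynomial
open Pool.Agent.Helper51.GT (Mat PMat fr Dat dg Zm Fil Cir flp Red gprod Zp Filp Circ tr4)

/-- `ρ ρ₁ = 1`, `ρ ≠ 1`. -/
structure Rho {K : Type} [Field K] (φ : K ≃+* K) (ρ : K) : Prop where
  mul : ρ * fr φ 2 ρ = 1
  ne : ρ ≠ 1

/-- The generators: pairs `(a, τ)` with `a a₂ = 1`, `a ≠ 1`, `τ ≠ 0`, `τ₂ = τ` and
`τ τ₁ (a + a₁) (1 + a a₁) = ρ a (1 + a₁²) + ρ⁻¹ a₁ (1 + a²)`. -/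
def XU {K : Type} [Field K] (φ : K ≃+* K) (ρ : K) : Set (K × K) :=
  {p | p.1 * fr φ 4 p.1 = 1 ∧ p.1 ≠ 1 ∧ p.2 ≠ 0 ∧ fr φ 4 p.2 = p.2 ∧
    p.2 * fr φ 2 p.2 * (p.1 + fr φ 2 p.1) * (1 + p.1 * fr φ 2 p.1) =
      ρ * p.1 * (1 + fr φ 2 p.1 ^ 2) + ρ⁻¹ * fr φ 2 p.1 * (1 + p.1 ^ 2)}

/-- `t = τ (1 + a a₁)`. -/
def tt {K : Type} [Field K] (φ : K ≃+* K) (p : K × K) : K := p.2 * (1 + p.1 * fr φ 2 p.1)

/-- `T = a + t z + ρ a₁ z²`. -/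
noncomputable def th {K : Type} [Field K] (φ : K ≃+* K) (ρ : K) (p : K × K) : Mat K :=
  dg φ p.1 + dg φ (tt φ p) * Zm + dg φ (ρ * fr φ 2 p.1) * (Zm * Zm)

/-- The adjugate of `T`. -/
noncomputable def ad {K : Type} [Field K] (φ : K ≃+* K) (ρ : K) (p : K × K) : Mat K :=
  (th φ ρ p).adjugate

/-- `P = (X + ρ²)(X + ρ⁻²)`, the reduced norm of `T`. -/
noncomputable def Pw {K : Type} [Field K] (ρ : K) : K[X] := (X + C (ρ ^ 2)) * (X + C (ρ⁻¹ ^ 2))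

/-- `H = X h`, `h = b z + b₁ z⁻¹`, `b = 1 + ρ`, `b₁ = 1 + ρ⁻¹`. -/
noncomputable def Hm {K : Type} [Field K] (φ : K ≃+* K) (ρ : K) : Mat K :=
  dg φ (1 + ρ⁻¹) * Zm ^ 3 + dg φ (1 + ρ) * Zm ^ 5

/-- `H' = X h'`, `h' = b₁ z³ + (b₁²/b) z + (b²/b₁) z⁻¹ + b z⁻³`; `b²/b₁ = ρ + ρ²`,
`b₁²/b = ρ⁻¹ + ρ⁻²`. -/
noncomputable def Hn {K : Type} [Field K] (φ : K ≃+* K) (ρ : K) : Mat K :=
  dg φ (1 + ρ) * Zm + dg φ (ρ + ρ ^ 2) * Zm ^ 3 + dg φ (ρ⁻¹ + ρ⁻¹ ^ 2) * Zm ^ 5 +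
    dg φ (1 + ρ⁻¹) * Zm ^ 7

/-- The flip `X^n M(1/X)ᵀ`. -/
noncomputable def fl {K : Type} [Field K] (n : ℕ) (M : Mat K) : Mat K :=
  Matrix.of fun r c => Polynomial.reflect n (M c r)

/-- Upper filtration: all terms `X^s E_ij` of `M` have `4 s + j - i ≤ d`. -/
def FilU {K : Type} [Field K] (d : ℕ) (M : Mat K) : Prop :=
  ∀ i j : Fin 4, ∀ s : ℕ, d + (i : ℕ) < 4 * s + (j : ℕ) → (M i j).coeff s = 0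

/-- `u_p = (a₃ + ρ⁻² a) / (τ₁ (1 + a a₃))`. -/
def uu {K : Type} [Field K] (φ : K ≃+* K) (ρ : K) (p : K × K) : K :=
  (fr φ 6 p.1 + ρ⁻¹ ^ 2 * p.1) * (fr φ 2 p.2 * (1 + p.1 * fr φ 6 p.1))⁻¹

/-- The kernel of `T` at `X = ρ⁻²`: `(u, ρ⁻¹, ρ⁻¹ u₂, ρ⁻²)`. -/
def kv {K : Type} [Field K] (φ : K ≃+* K) (ρ : K) (p : K × K) : Fin 4 → K :=
  ![uu φ ρ p, ρ⁻¹, ρ⁻¹ * fr φ 4 (uu φ ρ p), ρ⁻¹ ^ 2]

/-- The left kernel of `T` at `X = ρ⁻²`: `(ρ⁻¹ u₁, ρ, u₃, ρ²)`. -/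
def lv {K : Type} [Field K] (φ : K ≃+* K) (ρ : K) (p : K × K) : Fin 4 → K :=
  ![ρ⁻¹ * fr φ 2 (uu φ ρ p), ρ, fr φ 6 (uu φ ρ p), ρ ^ 2]

/-- `T_a(ρ⁻²) k_c`. -/
noncomputable def gv {K : Type} [Field K] (φ : K ≃+* K) (ρ : K) (a c : K × K) (r : Fin 4) : K :=
  ∑ i : Fin 4, (th φ ρ a r i).eval (ρ⁻¹ ^ 2) * kv φ ρ c i

/-- The Hermitian form
`M(a,b) = ρ² + ρ⁻² + ρ (u_(a,2) u_(b,1) + u_a u_(b,3)) + ρ⁻¹ (u_a u_(b,1) + u_(a,2) u_(b,3))`. -/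
def Mf {K : Type} [Field K] (φ : K ≃+* K) (ρ : K) (a b : K × K) : K :=
  ρ ^ 2 + ρ⁻¹ ^ 2 +
    ρ * (fr φ 4 (uu φ ρ a) * fr φ 2 (uu φ ρ b) + uu φ ρ a * fr φ 6 (uu φ ρ b)) +
    ρ⁻¹ * (uu φ ρ a * fr φ 2 (uu φ ρ b) + fr φ 4 (uu φ ρ a) * fr φ 6 (uu φ ρ b))

/-- The word `∏_{i<n} T(a_i) T(b_i)^adj`. -/
noncomputable def wd {K : Type} [Field K] (φ : K ≃+* K) (ρ : K) (a b : ℕ → K × K) : ℕ → Mat K
  | 0 => 1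
  | n + 1 => wd φ ρ a b n * (th φ ρ (a n) * ad φ ρ (b n))

/-- The reversed word. -/
noncomputable def wr {K : Type} [Field K] (φ : K ≃+* K) (ρ : K) (a b : ℕ → K × K) : ℕ → Mat K
  | 0 => 1
  | n + 1 => (th φ ρ (b n) * ad φ ρ (a n)) * wr φ ρ a b n

/-! ### Statements of the modules -/

/-- MATU: determinant and circulant property. -/
def ST_MATU : Prop :=
  ∀ (K : Type) [Field K] (φ : K ≃+* K) (ρ : K), Dat φ → Rho φ ρ → ∀ p ∈ XU φ ρ,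
    (th φ ρ p).det = Pw ρ ∧ Cir φ (th φ ρ p) ∧ Cir φ (ad φ ρ p)

/-- ADJU: upper filtration. -/
def ST_ADJU : Prop :=
  ∀ (K : Type) [Field K] (φ : K ≃+* K) (ρ : K) (p : K × K),
    FilU 2 (th φ ρ p) ∧ FilU 6 (ad φ ρ p)

/-- UNIU: unitarity. -/
def ST_UNIU : Prop :=
  ∀ (K : Type) [Field K] (φ : K ≃+* K) (ρ : K), Dat φ → Rho φ ρ →
    (Hm φ ρ).det ≠ 0 ∧ ∀ p ∈ XU φ ρ,
      fl 1 (th φ ρ p) * Hm φ ρ * th φ ρ p = (X : K[X]) • Hn φ ρ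

/-- FLPU: unitarity for one letter of a word. -/
def ST_FLPU : Prop :=
  ∀ (K : Type) [Field K] (φ : K ≃+* K) (ρ : K), Dat φ → Rho φ ρ → ∀ a ∈ XU φ ρ, ∀ b ∈ XU φ ρ,
    fl 2 (th φ ρ a * ad φ ρ b) * Hm φ ρ = Hm φ ρ * (th φ ρ b * ad φ ρ a)

/-- EVU: the value of `T_a T_c^adj` at `X = ρ⁻²` has rank one. -/
def ST_EVU : Prop :=
  ∀ (K : Type) [Field K] (φ : K ≃+* K) (ρ : K), Dat φ → Rho φ ρ → ∀ c ∈ XU φ ρ, ∃ k : K, k ≠ 0 ∧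
    ∀ a : K × K, ∀ r s : Fin 4,
      ((th φ ρ a * ad φ ρ c) r s).eval (ρ⁻¹ ^ 2) = k * gv φ ρ a c r * lv φ ρ c s

/-- PAIRU: the pairing of consecutive directions. -/
def ST_PAIRU : Prop :=
  ∀ (K : Type) [Field K] (φ : K ≃+* K) (ρ : K), Dat φ → Rho φ ρ → ∀ a ∈ XU φ ρ, ∃ k : K, k ≠ 0 ∧
    ∀ b ∈ XU φ ρ, ∀ c ∈ XU φ ρ,
      ∑ s : Fin 4, lv φ ρ b s * gv φ ρ a c s = k * (Mf φ ρ a b * Mf φ ρ c a)

/-- NDU: the form `M` does not vanish on pairs of different generators. -/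
def ST_NDU : Prop :=
  ∀ (K : Type) [Field K] (φ : K ≃+* K) (ρ : K), Dat φ → Rho φ ρ → ∀ a ∈ XU φ ρ, ∀ b ∈ XU φ ρ,
    a ≠ b → Mf φ ρ a b ≠ 0

/-- RNKU: reduced words are of rank one modulo `(X + ρ⁻²)^j` and do not vanish at `X = ρ⁻²`. -/
def ST_RNKU : Prop :=
  ∀ (K : Type) [Field K] (φ : K ≃+* K) (ρ : K), Dat φ → Rho φ ρ → ∀ a b : ℕ → K × K,
    (∀ i, a i ∈ XU φ ρ) → (∀ i, b i ∈ XU φ ρ) → ∀ j : ℕ, 1 ≤ j → Red a b j →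
    (∃ (u v : Fin 4 → K[X]) (S : Mat K),
      wd φ ρ a b j = Matrix.vecMulVec u v + ((X + C (ρ⁻¹ ^ 2) : K[X]) ^ j) • S) ∧
    ∃ r c : Fin 4, (wd φ ρ a b j r c).eval (ρ⁻¹ ^ 2) ≠ 0

/-- FLU: the flip is an anti-homomorphism. -/
def ST_FLU : Prop :=
  ∀ (K : Type) [Field K] (m n : ℕ) (M N : Mat K),
    (∀ (r c : Fin 4) (s : ℕ), m < s → (M r c).coeff s = 0) →
    (∀ (r c : Fin 4) (s : ℕ), n < s → (N r c).coeff s = 0) →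
    fl (m + n) (M * N) = fl n N * fl m M ∧
    (∀ (r c : Fin 4) (s : ℕ), m + n < s → ((M * N) r c).coeff s = 0) ∧
    (fl m M).det = Polynomial.reflect (4 * m) M.det ∧
    (∀ s : ℕ, 4 * m < s → M.det.coeff s = 0)

/-- PRODU: words. -/
def ST_PRODU : Prop :=
  ∀ (K : Type) [Field K] (φ : K ≃+* K) (ρ : K), Dat φ → Rho φ ρ → ∀ a b : ℕ → K × K,
    (∀ i, a i ∈ XU φ ρ) → (∀ i, b i ∈ XU φ ρ) → ∀ j : ℕ,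
    wd φ ρ a b j * wr φ ρ a b j = ((Pw ρ) ^ j) ^ 2 • (1 : Mat K) ∧
    (wd φ ρ a b j).det = ((Pw ρ) ^ j) ^ 4 ∧
    (∀ (r c : Fin 4) (s : ℕ), 2 * j < s → (wd φ ρ a b j r c).coeff s = 0) ∧
    fl (2 * j) (wd φ ρ a b j) * Hm φ ρ = Hm φ ρ * wr φ ρ a b j ∧
    Cir φ (wd φ ρ a b j)

/-- SYMU: symmetry of the determinant of `W - P^j`. -/
def ST_SYMU : Prop :=
  ∀ (K : Type) [Field K] (φ : K ≃+* K) (ρ : K), Dat φ → Rho φ ρ → ∀ a b : ℕ → K × K,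
    (∀ i, a i ∈ XU φ ρ) → (∀ i, b i ∈ XU φ ρ) → ∀ j : ℕ, ∀ t : ℕ,
    (wd φ ρ a b j - ((Pw ρ) ^ j) • (1 : Mat K)).det.coeff t =
      if t ≤ 8 * j then
        (wd φ ρ a b j - ((Pw ρ) ^ j) • (1 : Mat K)).det.coeff (8 * j - t) else 0

/-- DVU: the determinant of `W - P^j` is divisible by `P^(3j)`. -/
def ST_DVU : Prop :=
  ∀ (K : Type) [Field K] (φ : K ≃+* K) (ρ : K), Dat φ → Rho φ ρ → ∀ a b : ℕ → K × K,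
    (∀ i, a i ∈ XU φ ρ) → (∀ i, b i ∈ XU φ ρ) → ∀ j : ℕ, 1 ≤ j → Red a b j →
    (Pw ρ) ^ (3 * j) ∣ (wd φ ρ a b j - ((Pw ρ) ^ j) • (1 : Mat K)).det

/-- VANU: a divisible palindromic polynomial with high order at `0` vanishes. -/
def ST_VANU : Prop :=
  ∀ (K : Type) [Field K] (ρ : K) (p : K[X]) (j d : ℕ), ρ ≠ 0 → j < d →
    (Pw ρ) ^ (3 * j) ∣ p → (∀ t, t < d → p.coeff t = 0) →
    (∀ t, p.coeff t = if t ≤ 8 * j then p.coeff (8 * j - t) else 0) → p = 0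

/-- RELU: a short reduced word is not congruent to `P^j`. -/
def ST_RELU : Prop :=
  ∀ (K : Type) [Field K] (φ : K ≃+* K) (ρ : K), Dat φ → Rho φ ρ → ∀ a b : ℕ → K × K,
    (∀ i, a i ∈ XU φ ρ) → (∀ i, b i ∈ XU φ ρ) → ∀ d j : ℕ, 1 ≤ j → j < d → Red a b j →
    ¬ Fil d (wd φ ρ a b j - ((Pw ρ) ^ j) • (1 : Mat K))

/-- IDXU: the group of skew power series of norm one with constant term in `{x | x x₂ = 1}` and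
its congruence subgroups. -/
def ST_IDXU : Prop :=
  ∀ (K : Type) [Field K] [Finite K] (φ : K ≃+* K), Dat φ →
    ∃ G : Subgroup (PMat K)ˣ, (∀ g : (PMat K)ˣ, g ∈ G ↔ Circ φ g.val ∧ g.val.det = 1 ∧
      PowerSeries.constantCoeff (g.val 0 0) * fr φ 4 (PowerSeries.constantCoeff (g.val 0 0)) = 1) ∧
    ∀ d : ℕ, 1 ≤ d → ∃ N : Subgroup G, N.Normal ∧
      (∀ g : G, g ∈ N ↔ Filp d (g.val.val - 1)) ∧ N.index ≠ 0 ∧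
      N.index ≤ Nat.card {x : K // x * fr φ 4 x = 1} *
        Nat.card K ^ (d - 1 - (d - 1) / 4) * Nat.card {x : K // tr4 φ x = 0} ^ ((d - 1) / 4)

/-- GRPU: the finite group and the elements `t`. -/
def ST_GRPU : Prop :=
  ∀ (K : Type) [Field K] [Finite K] (φ : K ≃+* K) (ρ : K), Dat φ → Rho φ ρ → ∀ d : ℕ, 1 ≤ d →
    ∃ (Q : Type) (_ : Group Q) (_ : Finite Q) (t : XU φ ρ → Q),
      Nat.card Q ≤ Nat.card {x : K // x * fr φ 4 x = 1} *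
        Nat.card K ^ (d - 1 - (d - 1) / 4) * Nat.card {x : K // tr4 φ x = 0} ^ ((d - 1) / 4) ∧
      ∀ (a b : ℕ → XU φ ρ) (j : ℕ), 1 ≤ j → j < d → Red a b j → gprod t a b j ≠ 1

/-- FLDU: the fields; `q = (2^r)²`. -/
def ST_FLDU : Prop :=
  ∀ r : ℕ, 1 ≤ r → ∃ (K : Type) (_ : Field K) (_ : Finite K) (φ : K ≃+* K) (ρ : K), Dat φ ∧
    Rho φ ρ ∧ Nat.card K = (2 ^ r) ^ 8 ∧ (∀ x : K, φ x = x ^ (2 ^ r)) ∧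
    Nat.card {x : K // x * fr φ 4 x = 1} ≤ 2 * (2 ^ r) ^ 4 ∧
    Nat.card {x : K // tr4 φ x = 0} ≤ (2 ^ r) ^ 6

/-- NUMU: the number of generators. -/
def ST_NUMU : Prop :=
  ∀ (K : Type) [Field K] [Finite K] (φ : K ≃+* K) (ρ : K) (r : ℕ), 1 ≤ r → Dat φ → Rho φ ρ →
    Nat.card K = (2 ^ r) ^ 8 → (∀ x : K, φ x = x ^ (2 ^ r)) →
    (2 ^ r) ^ 6 ≤ 4 * Nat.card (XU φ ρ)

/-- FINU: the theorem. -/
def ST_FINU : Prop :=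
  ∀ m : ℕ, 1 ≤ m → ∀ n : ℕ, 2 ≤ n → ∃ G : SimpleGraph (Fin n),
    (∀ (u : Fin n) (w : G.Walk u u), w.IsCycle → 2 * m + 2 ≤ w.length) ∧
    (n : ℝ) ^ ((1 : ℝ) + 3 / ((4 * m + 2 - m / 4 : ℕ) : ℝ)) ≤ 2048 * (G.edgeSet.ncard : ℝ)

end Pool.Agent.Helper69.GU
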