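import Pool.Agent.Helper69.GU.Defs
import Pool.Agent.Helper69.GT.Fr

set_option autoImplicit false

/-! Basic facts on the generators of `Pool.Agent.Helper69.GU`. -/

namespace Pool.Agent.Helper69.GU

open Polynomial
open Pool.Agent.Helper51.GT (Mat PMat fr Dat dg Zm Fil Cir flp Red gprod Zp Filp Circ tr4 fra_zero
  fra_fr fra_add8 fra_inj)

variable {K : Type} [Field K] {φ : K ≃+* K} {ρ : K}

theorem Rho.ne0 (h : Rho φ ρ) : ρ ≠ 0 := by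
  rintro rfl
  have := h.mul
  simp at this

theorem Rho.r1 (h : Rho φ ρ) : fr φ 2 ρ = ρ⁻¹ := eq_inv_of_mul_eq_one_right h.mul

theorem Rho.r2 (h : Rho φ ρ) : fr φ 4 ρ = ρ := by
  rw [show (4 : ℕ) = 2 + 2 from rfl, ← fra_fr, h.r1, map_inv₀, h.r1, inv_inv]

theorem Rho.r3 (h : Rho φ ρ) : fr φ 6 ρ = ρ⁻¹ := by
  rw [show (6 : ℕ) = 2 + 4 from rfl, ← fra_fr, h.r2, h.r1]

theorem Rho.w (hD : Dat φ) (h : Rho φ ρ) : ρ ^ 2 + ρ⁻¹ ^ 2 ≠ 0 := by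
  intro hw
  have h0 := h.ne0
  have h1 : (ρ + 1) ^ 4 = 0 := by
    have h2 : ρ ^ 2 * (ρ ^ 2 + ρ⁻¹ ^ 2) = ρ ^ 4 + 1 := by
      field_simp
    rw [hw, mul_zero] at h2
    linear_combination -h2 + (2 * ρ ^ 3 + 3 * ρ ^ 2 + 2 * ρ) * hD.two
  have h3 : ρ + 1 = 0 := pow_eq_zero_iff (by norm_num) |>.mp h1
  exact h.ne (by linear_combination h3 - hD.two)

/-- All facts on a generator, in terms of `a = a₀`, `b = a₁`, `τ`, `τ₁`. -/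
structure UFact (ρ a b t t1 : K) : Prop where
  a0 : a ≠ 0
  b0 : b ≠ 0
  t0 : t ≠ 0
  t10 : t1 ≠ 0
  ab : a + b ≠ 0
  s0 : 1 + a * b ≠ 0
  E : t * t1 * (a + b) * (1 + a * b) = ρ * a * (1 + b ^ 2) + ρ⁻¹ * b * (1 + a ^ 2)

theorem XU_facts (hD : Dat φ) {p : K × K} (hp : p ∈ XU φ ρ) :
    UFact ρ p.1 (fr φ 2 p.1) p.2 (fr φ 2 p.2) ∧
    fr φ 4 p.1 = p.1⁻¹ ∧ fr φ 6 p.1 = (fr φ 2 p.1)⁻¹ ∧ fr φ 8 p.1 = p.1 ∧
    fr φ 4 p.2 = p.2 ∧ fr φ 6 p.2 = fr φ 2 p.2 ∧ fr φ 8 p.2 = p.2 := by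
  obtain ⟨h1, h2, h3, h4, h5⟩ := hp
  have ha : p.1 ≠ 0 := by
    intro h
    rw [h] at h1
    simp at h1
  have hb : fr φ 2 p.1 ≠ 0 := by
    rw [Ne, map_eq_zero]
    exact ha
  have e2 : fr φ 4 p.1 = p.1⁻¹ := eq_inv_of_mul_eq_one_right h1
  have e3 : fr φ 6 p.1 = (fr φ 2 p.1)⁻¹ := by
    rw [show (6 : ℕ) = 2 + 4 from rfl, ← fra_fr, e2, map_inv₀]
  have key : p.1 ^ 2 = 1 → p.1 = 1 := by
    intro h
    have h6 : (p.1 - 1) ^ 2 = 0 := by linear_combination h + (1 - p.1) * hD.two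
    have h7 : p.1 - 1 = 0 := pow_eq_zero_iff (by norm_num) |>.mp h6
    exact sub_eq_zero.mp h7
  refine ⟨⟨ha, hb, h3, ?_, ?_, ?_, h5⟩, e2, e3, hD.ord _, h4, ?_, hD.ord _⟩
  · rw [Ne, map_eq_zero]
    exact h3
  · intro h
    have h6 : fr φ 2 p.1 = p.1 := by linear_combination h - p.1 * hD.two
    have h7 : fr φ 4 p.1 = p.1 := by
      rw [show (4 : ℕ) = 2 + 2 from rfl, ← fra_fr, h6, h6]
    rw [h7] at h1
    exact h2 (key (by linear_combination h1))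
  · intro h
    have h6 : p.1 * fr φ 2 p.1 = 1 := by linear_combination h - hD.two
    have h7 := congrArg (fr φ 2) h6
    rw [map_mul, map_one, fra_fr] at h7
    norm_num at h7
    have h8 : fr φ 4 p.1 = p.1 := by
      have h9 : fr φ 2 p.1 * fr φ 4 p.1 = fr φ 2 p.1 * p.1 := by
        rw [h7]
        linear_combination -h6
      exact mul_left_cancel₀ hb h9
    rw [h8] at h1
    exact h2 (key (by linear_combination h1))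
  · rw [show (6 : ℕ) = 2 + 4 from rfl, ← fra_fr, h4]

theorem tt_ne (hD : Dat φ) {p : K × K} (hp : p ∈ XU φ ρ) : tt φ p ≠ 0 := by
  obtain ⟨h, -⟩ := XU_facts hD hp
  exact mul_ne_zero h.t0 h.s0

/-- `u` and its conjugates in terms of `a`, `b = a₁`, `τ`, `τ₁`. -/
theorem uu_conj (hD : Dat φ) (hr : Rho φ ρ) {p : K × K} (hp : p ∈ XU φ ρ) :
    uu φ ρ p = (1 + ρ⁻¹ ^ 2 * p.1 * fr φ 2 p.1) / (fr φ 2 p.2 * (p.1 + fr φ 2 p.1)) ∧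
    fr φ 2 (uu φ ρ p) = (p.1 + ρ ^ 2 * fr φ 2 p.1) / (p.2 * (1 + p.1 * fr φ 2 p.1)) ∧
    fr φ 4 (uu φ ρ p) = (p.1 * fr φ 2 p.1 + ρ⁻¹ ^ 2) / (fr φ 2 p.2 * (p.1 + fr φ 2 p.1)) ∧
    fr φ 6 (uu φ ρ p) = (fr φ 2 p.1 + ρ ^ 2 * p.1) / (p.2 * (1 + p.1 * fr φ 2 p.1)) := by
  obtain ⟨hF, a2, a3, a4, t2, t3, t4⟩ := XU_facts hD hp
  obtain ⟨ha, hb, ht, ht1, hab, hs, hE⟩ := hF
  have r0 := hr.ne0
  have r1 := hr.r1
  have r2 := hr.r2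
  have r3 := hr.r3
  have b1 : fr φ 2 (fr φ 2 p.1) = p.1⁻¹ := by rw [fra_fr]; exact a2
  have b2 : fr φ 2 (fr φ 6 p.1) = p.1 := by rw [fra_fr]; exact a4
  have c1 : fr φ 2 (fr φ 2 p.2) = p.2 := by rw [fra_fr]; exact t2
  have e0 : uu φ ρ p = (1 + ρ⁻¹ ^ 2 * p.1 * fr φ 2 p.1) / (fr φ 2 p.2 * (p.1 + fr φ 2 p.1)) := by
    unfold uu
    rw [a3]
    have : 1 + p.1 * (fr φ 2 p.1)⁻¹ = (p.1 + fr φ 2 p.1) * (fr φ 2 p.1)⁻¹ := by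
      rw [add_mul, mul_inv_cancel₀ hb, add_comm]
    rw [this]
    field_simp
  have e1 : fr φ 2 (uu φ ρ p) =
      (p.1 + ρ ^ 2 * fr φ 2 p.1) / (p.2 * (1 + p.1 * fr φ 2 p.1)) := by
    rw [e0]
    simp only [map_div₀, map_add, map_mul, map_one, map_pow, map_inv₀, b1, c1, r1, inv_inv]
    have : fr φ 2 p.1 + p.1⁻¹ = (1 + p.1 * fr φ 2 p.1) * p.1⁻¹ := by
      rw [add_mul, one_mul, mul_comm p.1 (fr φ 2 p.1), mul_assoc, mul_inv_cancel₀ ha, mul_one,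
        add_comm]
    rw [this]
    field_simp
  have e2 : fr φ 4 (uu φ ρ p) =
      (p.1 * fr φ 2 p.1 + ρ⁻¹ ^ 2) / (fr φ 2 p.2 * (p.1 + fr φ 2 p.1)) := by
    rw [show (4 : ℕ) = 2 + 2 from rfl, ← fra_fr, e1]
    simp only [map_div₀, map_add, map_mul, map_one, map_pow, map_inv₀, b1, r1]
    have : 1 + fr φ 2 p.1 * p.1⁻¹ = (p.1 + fr φ 2 p.1) * p.1⁻¹ := by
      rw [add_mul, mul_inv_cancel₀ ha]
    rw [this]
    field_simp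
  have e3 : fr φ 6 (uu φ ρ p) =
      (fr φ 2 p.1 + ρ ^ 2 * p.1) / (p.2 * (1 + p.1 * fr φ 2 p.1)) := by
    rw [show (6 : ℕ) = 2 + 4 from rfl, ← fra_fr, e2]
    simp only [map_div₀, map_add, map_mul, map_one, map_pow, map_inv₀, b1, c1, r1, inv_inv]
    have : fr φ 2 p.1 + p.1⁻¹ = (1 + p.1 * fr φ 2 p.1) * p.1⁻¹ := by
      rw [add_mul, one_mul, mul_comm p.1 (fr φ 2 p.1), mul_assoc, mul_inv_cancel₀ ha, mul_one,
        add_comm]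
    rw [this]
    field_simp
  exact ⟨e0, e1, e2, e3⟩

end Pool.Agent.Helper69.GU
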