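import Pool.Agent.Helper69.GU.Lib

set_option autoImplicit false

/-! The matrix of `T` and all values attached to a generator. -/

namespace Pool.Agent.Helper69.GU

open Polynomial
open Pool.Agent.Helper51.GT (Mat PMat fr Dat dg Zm Fil Cir flp Red gprod Zp Filp Circ tr4 fra_zero
  fra_fr fra_add8 fra_inj)

variable {K : Type} [Field K] {φ : K ≃+* K} {ρ : K}

/-- The matrix of `T`. -/
theorem th_mat (φ : K ≃+* K) (ρ : K) (p : K × K) : th φ ρ p =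
    !![C p.1, C (tt φ p), C (ρ * fr φ 2 p.1), 0;
       0, C (fr φ 2 p.1), C (fr φ 2 (tt φ p)), C (fr φ 2 (ρ * fr φ 2 p.1));
       X * C (fr φ 4 (ρ * fr φ 2 p.1)), 0, C (fr φ 4 p.1), C (fr φ 4 (tt φ p));
       X * C (fr φ 6 (tt φ p)), X * C (fr φ 6 (ρ * fr φ 2 p.1)), 0, C (fr φ 6 p.1)] := by
  have h2 : (Zm : Mat K) * Zm = !![0, 0, 1, 0; 0, 0, 0, 1; X, 0, 0, 0; 0, X, 0, 0] := by
    ext i j
    fin_cases i <;> fin_cases j <;> simp [Zm, Matrix.mul_apply, Fin.sum_univ_four]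
  unfold th dg
  rw [h2]
  ext i j
  fin_cases i <;> fin_cases j <;>
    simp [Zm, Matrix.diagonal_mul, fra_zero]
  all_goals rw [mul_comm X]

/-- The value of `T` at `X = ρ⁻²`. -/
theorem th_ev (hr : Rho φ ρ) (p : K × K) (r i : Fin 4) :
    (th φ ρ p r i).eval (ρ⁻¹ ^ 2) =
    (!![p.1, tt φ p, ρ * fr φ 2 p.1, 0;
       0, fr φ 2 p.1, fr φ 2 (tt φ p), ρ⁻¹ * fr φ 4 p.1;
       ρ⁻¹ * fr φ 6 p.1, 0, fr φ 4 p.1, fr φ 4 (tt φ p);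
       ρ⁻¹ ^ 2 * fr φ 6 (tt φ p), ρ⁻¹ ^ 2 * (ρ⁻¹ * fr φ 8 p.1), 0, fr φ 6 p.1] :
       Matrix (Fin 4) (Fin 4) K) r i := by
  have h0 := hr.ne0
  rw [th_mat]
  fin_cases r <;> fin_cases i <;> simp [hr.r1, hr.r2, hr.r3, fra_fr]
  · field_simp
  · rw [mul_comm]

/-- The conjugates of `t`. -/
theorem tt_conj (hD : Dat φ) {p : K × K} (hp : p ∈ XU φ ρ) :
    tt φ p = p.2 * (1 + p.1 * fr φ 2 p.1) ∧
    fr φ 2 (tt φ p) = fr φ 2 p.2 * (p.1 + fr φ 2 p.1) / p.1 ∧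
    fr φ 4 (tt φ p) = p.2 * (1 + p.1 * fr φ 2 p.1) / (p.1 * fr φ 2 p.1) ∧
    fr φ 6 (tt φ p) = fr φ 2 p.2 * (p.1 + fr φ 2 p.1) / fr φ 2 p.1 := by
  obtain ⟨hF, a2, a3, a4, t2, t3, t4⟩ := XU_facts hD hp
  obtain ⟨ha, hb, ht, ht1, hab, hs, hE⟩ := hF
  have b1 : fr φ 2 (fr φ 2 p.1) = p.1⁻¹ := by rw [fra_fr]; exact a2
  have b2 : fr φ 4 (fr φ 2 p.1) = (fr φ 2 p.1)⁻¹ := by rw [fra_fr]; exact a3
  have b3 : fr φ 6 (fr φ 2 p.1) = p.1 := by rw [fra_fr]; exact a4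
  refine ⟨rfl, ?_, ?_, ?_⟩
  · simp only [tt, map_mul, map_add, map_one, b1]
    field_simp
  · simp only [tt, map_mul, map_add, map_one, b2, a2, t2]
    field_simp
    ring
  · simp only [tt, map_mul, map_add, map_one, b3, a3, t3]
    field_simp
    ring

/-- All values attached to a generator. -/
structure UVal (ρ a b t t1 a2 a3 a4 T0 T1 T2 T3 U0 U1 U2 U3 : K) : Prop where
  F : UFact ρ a b t t1
  r0 : ρ ≠ 0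
  two : (2 : K) = 0
  e2 : a2 = a⁻¹
  e3 : a3 = b⁻¹
  e4 : a4 = a
  T0 : T0 = t * (1 + a * b)
  T1 : T1 = t1 * (a + b) / a
  T2 : T2 = t * (1 + a * b) / (a * b)
  T3 : T3 = t1 * (a + b) / b
  U0 : U0 = (1 + ρ⁻¹ ^ 2 * a * b) / (t1 * (a + b))
  U1 : U1 = (a + ρ ^ 2 * b) / (t * (1 + a * b))
  U2 : U2 = (a * b + ρ⁻¹ ^ 2) / (t1 * (a + b))
  U3 : U3 = (b + ρ ^ 2 * a) / (t * (1 + a * b))

theorem XU_val (hD : Dat φ) (hr : Rho φ ρ) {p : K × K} (hp : p ∈ XU φ ρ) :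
    UVal ρ p.1 (fr φ 2 p.1) p.2 (fr φ 2 p.2) (fr φ 4 p.1) (fr φ 6 p.1) (fr φ 8 p.1)
      (tt φ p) (fr φ 2 (tt φ p)) (fr φ 4 (tt φ p)) (fr φ 6 (tt φ p))
      (uu φ ρ p) (fr φ 2 (uu φ ρ p)) (fr φ 4 (uu φ ρ p)) (fr φ 6 (uu φ ρ p)) := by
  obtain ⟨hF, a2, a3, a4, t2, t3, t4⟩ := XU_facts hD hp
  obtain ⟨u0, u1, u2, u3⟩ := uu_conj hD hr hp
  obtain ⟨s0, s1, s2, s3⟩ := tt_conj hD hp
  exact ⟨hF, hr.ne0, hD.two, a2, a3, a4, s0, s1, s2, s3, u0, u1, u2, u3⟩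

end Pool.Agent.Helper69.GU
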