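import Pool.Agent.Helper69.GU.Lib2

set_option autoImplicit false

/-! The Hermitian form `M` as a function of one of its arguments. -/

namespace Pool.Agent.Helper69.GU

open Polynomial
open Pool.Agent.Helper51.GT (Mat PMat fr Dat dg Zm Fil Cir flp Red gprod Zp Filp Circ tr4 fra_zero
  fra_fr fra_add8 fra_inj)

variable {K : Type} [Field K] {φ : K ≃+* K} {ρ : K}

section vals

variable {a b t t1 a2 a3 a4 T0 T1 T2 T3 U0 U1 U2 U3 : K}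

theorem UVal.self (h : UVal ρ a b t t1 a2 a3 a4 T0 T1 T2 T3 U0 U1 U2 U3) :
    ρ ^ 2 + ρ⁻¹ ^ 2 + ρ * (U2 * U1 + U0 * U3) + ρ⁻¹ * (U0 * U1 + U2 * U3) = 0 := by
  obtain ⟨⟨ha, hb, ht, ht1, hab, hs, hE⟩, h0, h2, e2, e3, e4, s0, s1, s2, s3, u0, u1, u2, u3⟩ := h
  subst u0 u1 u2 u3
  field_simp at hE
  field_simp
  linear_combination (ρ ^ 4 + 1) * hE + (2 * ρ ^ 2 * a + 2 * ρ ^ 2 * a * b ^ 2 +
    2 * ρ ^ 4 * a ^ 2 * b + 2 * ρ ^ 4 * b + ρ ^ 6 * a + ρ ^ 6 * a * b ^ 2 + a ^ 2 * b + b) * h2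

/-- Affine in the first argument. -/
theorem UVal.left (h : UVal ρ a b t t1 a2 a3 a4 T0 T1 T2 T3 U0 U1 U2 U3) (X0 X2 : K) :
    (ρ ^ 2 + ρ⁻¹ ^ 2 + ρ * (X2 * U1 + X0 * U3) + ρ⁻¹ * (X0 * U1 + X2 * U3)) * T0 =
      ρ * (ρ ^ 2 + ρ⁻¹ ^ 2) * (a * (X0 + U0) + b * (X2 + U2)) := by
  have hM := h.self
  obtain ⟨⟨ha, hb, ht, ht1, hab, hs, hE⟩, h0, h2, e2, e3, e4, s0, s1, s2, s3, u0, u1, u2, u3⟩ := h
  have h1 : U1 * T0 = a + ρ ^ 2 * b := by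
    rw [u1, s0, div_mul_cancel₀ _ (mul_ne_zero ht hs)]
  have h3 : U3 * T0 = b + ρ ^ 2 * a := by
    rw [u3, s0, div_mul_cancel₀ _ (mul_ne_zero ht hs)]
  have hr1 : ρ * ρ⁻¹ = 1 := mul_inv_cancel₀ h0
  generalize ρ⁻¹ = r at *
  linear_combination T0 * hM + (ρ * (X2 - U2) + r * (X0 - U0)) * h1 +
    (ρ * (X0 - U0) + r * (X2 - U2)) * h3 +
    ((X0 - U0) * b * ρ + (X2 - U2) * a * ρ - r * (a * (X0 + U0) + b * (X2 + U2))) * hr1 +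
    (-(ρ ^ 3 + r) * (a * U0 + b * U2) + ρ * b * (X0 - U0) + ρ * a * (X2 - U2)) * h2

/-- Affine in the second argument. -/
theorem UVal.right (h : UVal ρ a b t t1 a2 a3 a4 T0 T1 T2 T3 U0 U1 U2 U3) (X1 X3 : K) :
    (ρ ^ 2 + ρ⁻¹ ^ 2 + ρ * (U2 * X1 + U0 * X3) + ρ⁻¹ * (U0 * X1 + U2 * X3)) *
      (t1 * (a + b)) =
      ρ⁻¹ * (ρ ^ 2 + ρ⁻¹ ^ 2) * (a * b * (U1 + X1) + (U3 + X3)) := by
  have hM := h.self
  obtain ⟨⟨ha, hb, ht, ht1, hab, hs, hE⟩, h0, h2, e2, e3, e4, s0, s1, s2, s3, u0, u1, u2, u3⟩ := h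
  have h1 : U0 * (t1 * (a + b)) = 1 + ρ⁻¹ ^ 2 * a * b := by
    rw [u0, div_mul_cancel₀ _ (mul_ne_zero ht1 hab)]
  have h3 : U2 * (t1 * (a + b)) = a * b + ρ⁻¹ ^ 2 := by
    rw [u2, div_mul_cancel₀ _ (mul_ne_zero ht1 hab)]
  have hr1 : ρ * ρ⁻¹ = 1 := mul_inv_cancel₀ h0
  generalize ρ⁻¹ = r at *
  linear_combination (t1 * (a + b)) * hM + (ρ * (X3 - U3) + r * (X1 - U1)) * h1 +
    (ρ * (X1 - U1) + r * (X3 - U3)) * h3 +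
    ((X1 - U1) * r + (X3 - U3) * r * a * b - ρ * (a * b * (U1 + X1) + (U3 + X3))) * hr1 +
    ((X1 - U1) * r + (X3 - U3) * r * a * b - (ρ + r ^ 3) * (a * b * U1 + U3)) * h2

end vals

theorem Mf_self (hD : Dat φ) (hr : Rho φ ρ) {y : K × K} (hy : y ∈ XU φ ρ) :
    Mf φ ρ y y = 0 := (XU_val hD hr hy).self

theorem Mf_left (hD : Dat φ) (hr : Rho φ ρ) (x : K × K) {y : K × K} (hy : y ∈ XU φ ρ) :
    Mf φ ρ x y * tt φ y = ρ * (ρ ^ 2 + ρ⁻¹ ^ 2) *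
      (y.1 * (uu φ ρ x + uu φ ρ y) + fr φ 2 y.1 * (fr φ 4 (uu φ ρ x) + fr φ 4 (uu φ ρ y))) :=
  (XU_val hD hr hy).left _ _

theorem Mf_right (hD : Dat φ) (hr : Rho φ ρ) {x : K × K} (hx : x ∈ XU φ ρ) (y : K × K) :
    Mf φ ρ x y * (fr φ 2 x.2 * (x.1 + fr φ 2 x.1)) = ρ⁻¹ * (ρ ^ 2 + ρ⁻¹ ^ 2) *
      (x.1 * fr φ 2 x.1 * (fr φ 2 (uu φ ρ x) + fr φ 2 (uu φ ρ y)) +
        (fr φ 6 (uu φ ρ x) + fr φ 6 (uu φ ρ y))) :=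
  (XU_val hD hr hx).right _ _

/-- Hermitian symmetry. -/
theorem Mf_symm (hD : Dat φ) (hr : Rho φ ρ) (x y : K × K) :
    fr φ 2 (Mf φ ρ x y) = Mf φ ρ y x := by
  simp only [Mf, map_add, map_mul, map_pow, map_inv₀, fra_fr, Nat.reduceAdd, hr.r1, hD.ord,
    inv_inv]
  ring

end Pool.Agent.Helper69.GU
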